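import Pool.Agent.H295R2.Nic.Defs

/-!
# Assembly, part 1: counting functions, log-log limits, general lower bound
-/

set_option autoImplicit false

open MeasureTheory Filter Topology Set

namespace Pool.Agent.H295R2.Nic

open Pool.Agent.H295R2

noncomputable section

lemma loglog_limit {N : ℝ → ℝ} {a : ℝ}
    (h1 : ∀ ε > 0, ∀ᶠ x : ℝ in atTop, Real.exp ((Real.log x) ^ (a - ε)) ≤ N x)
    (h2 : ∀ ε > 0, ∀ᶠ x : ℝ in atTop, N x ≤ Real.exp ((Real.log x) ^ (a + ε))) :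
    Tendsto (fun x : ℝ => Real.log (Real.log (N x)) / Real.log (Real.log x)) atTop (𝓝 a) := by
  rw [Metric.tendsto_nhds]
  intro ε hε
  filter_upwards [h1 (ε / 2) (by linarith), h2 (ε / 2) (by linarith),
    Real.tendsto_log_atTop.eventually_ge_atTop 2] with x h1 h2 hL
  set L := Real.log x with hLdef
  have hL0 : 0 < L := by linarith
  have hlL : 0 < Real.log L := Real.log_pos (by linarith)
  have hA : L ^ (a - ε / 2) ≤ Real.log (N x) := by
    have := Real.log_le_log (Real.exp_pos _) h1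
    rwa [Real.log_exp] at this
  have hA0 : 0 < L ^ (a - ε / 2) := Real.rpow_pos_of_pos hL0 _
  have hN0 : 0 < N x := lt_of_lt_of_le (Real.exp_pos _) h1
  have hB : Real.log (N x) ≤ L ^ (a + ε / 2) := by
    have := Real.log_le_log hN0 h2
    rwa [Real.log_exp] at this
  have h4 : (a - ε / 2) * Real.log L ≤ Real.log (Real.log (N x)) := by
    rw [← Real.log_rpow hL0]
    exact Real.log_le_log hA0 hA
  have h5 : Real.log (Real.log (N x)) ≤ (a + ε / 2) * Real.log L := by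
    rw [← Real.log_rpow hL0]
    exact Real.log_le_log (lt_of_lt_of_le hA0 hA) hB
  rw [Real.dist_eq, abs_lt]
  constructor
  · have : a - ε / 2 ≤ Real.log (Real.log (N x)) / Real.log L := by rw [le_div_iff₀ hlL]; exact h4
    linarith
  · have : Real.log (Real.log (N x)) / Real.log L ≤ a + ε / 2 := by rw [div_le_iff₀ hlL]; exact h5
    linarith

/-! ### counting functions -/

lemma fin_le (P : ℕ → Prop) (x : ℝ) : ({n : ℕ | 3 ≤ n ∧ (n : ℝ) ≤ x ∧ P n}).Finite := by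
  refine (Set.finite_Iic ⌊x⌋₊).subset ?_
  rintro n ⟨-, h, -⟩
  exact Nat.le_floor h

lemma ncard_mono {P Q : ℕ → Prop} (x : ℝ) (h : ∀ n, 3 ≤ n → P n → Q n) :
    ({n : ℕ | 3 ≤ n ∧ (n : ℝ) ≤ x ∧ P n}).ncard ≤ ({n : ℕ | 3 ≤ n ∧ (n : ℝ) ≤ x ∧ Q n}).ncard :=
  Set.ncard_le_ncard (fun n hn => ⟨hn.1, hn.2.1, h n hn.1 hn.2.2⟩) (fin_le Q x)

lemma cnt_triv (P : ℕ → Prop) {x : ℝ} (hx : 1 ≤ x) :
    (({n : ℕ | 3 ≤ n ∧ (n : ℝ) ≤ x ∧ P n}).ncard : ℝ) ≤ Real.exp (Real.log x) := by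
  rw [Real.exp_log (by linarith)]
  have h1 : ({n : ℕ | 3 ≤ n ∧ (n : ℝ) ≤ x ∧ P n}).ncard ≤ ⌊x⌋₊ := by
    have h2 : ({n : ℕ | 3 ≤ n ∧ (n : ℝ) ≤ x ∧ P n}) ⊆ ((Finset.Icc 1 ⌊x⌋₊ : Finset ℕ) : Set ℕ) := by
      rintro n ⟨h3, h4, -⟩
      simp only [Finset.coe_Icc, Set.mem_Icc]
      exact ⟨by omega, Nat.le_floor h4⟩
    have h3 := Set.ncard_le_ncard h2 (Finset.finite_toSet _)
    rw [Set.ncard_coe_finset, Nat.card_Icc] at h3
    omega
  calc ((({n : ℕ | 3 ≤ n ∧ (n : ℝ) ≤ x ∧ P n}).ncard : ℕ) : ℝ) ≤ (⌊x⌋₊ : ℝ) := by exact_mod_cast h1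
    _ ≤ x := Nat.floor_le (by linarith)

lemma log_three : 1 < Real.log 3 := by
  rw [Real.lt_log_iff_exp_lt (by norm_num)]
  have := Real.exp_one_lt_d9
  linarith

lemma one_lt_log {n : ℕ} (hn : 3 ≤ n) : 1 < Real.log n := by
  have h3 : (3:ℝ) ≤ n := by exact_mod_cast hn
  exact lt_of_lt_of_le log_three (Real.log_le_log (by norm_num) h3)

lemma exc_mono {c c' κ κ' : ℝ} {n : ℕ} (hn : 3 ≤ n)
    (h : c' * (Real.log n) ^ (-κ') ≤ c * (Real.log n) ^ (-κ)) (he : Exc c κ n) : Exc c' κ' n := by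
  unfold Exc at *
  refine le_trans ?_ he
  have h1 := one_lt_log hn
  have h2 : 0 < Real.log (Real.log n) := Real.log_pos h1
  have h3 := Real.exp_pos Real.eulerMascheroniConstant
  apply mul_le_mul_of_nonneg_left _ (by positivity)
  linarith

lemma exc_nonneg_to {c κ κ' : ℝ} (hc : 0 ≤ c) {n : ℕ} (hn : 3 ≤ n) (he : Exc c κ n) {c' : ℝ} (hc' : c' ≤ 0) :
    Exc c' κ' n := by
  refine exc_mono hn ?_ he
  have h1 := one_lt_log hn
  have h2 : 0 < (Real.log n) ^ (-κ) := Real.rpow_pos_of_pos (by linarith) _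
  have h3 : 0 < (Real.log n) ^ (-κ') := Real.rpow_pos_of_pos (by linarith) _
  nlinarith [mul_nonneg hc h2.le, mul_nonneg (neg_nonneg.mpr hc') h3.le]

lemma exc_zero {κ κ' : ℝ} {n : ℕ} : Exc 0 κ n ↔ Exc 0 κ' n := by
  unfold Exc
  simp

/-! ### upper bound -/

/-- for `κ' < 1 - Θ` -/
lemma upper_neg (hU : Upper) (hN : NicUp) {κ' : ℝ} (h0 : 0 < κ') (h1 : κ' < 1 - zetaSup) {ε : ℝ}
    (hε : 0 < ε) : ∀ᶠ x : ℝ in atTop, (cnt (-1) κ' x : ℝ) ≤ Real.exp ((Real.log x) ^ (1 - κ' / 2 + ε)) := by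
  have hz := half_le_zetaSup
  obtain ⟨C0, hC0⟩ := hN (1 - κ') (by linarith) (by linarith)
  have hb : ∃ y₀ : ℝ, ∀ y : ℝ, y₀ ≤ y → fN y ≤ (max C0 1) * y ^ (-κ') := by
    refine ⟨4, fun y hy => ?_⟩
    have h2 := hC0 y hy
    have h3 : (1 - κ' - 1) = -κ' := by ring
    rw [h3] at h2
    refine (le_abs_self _).trans (h2.trans ?_)
    have h4 : 0 < y ^ (-κ') := Real.rpow_pos_of_pos (by linarith) _
    exact mul_le_mul_of_nonneg_right (le_max_left _ _) h4.le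
  obtain ⟨x₀, hx₀⟩ := hU κ' (max C0 1) h0 (by linarith) (lt_of_lt_of_le one_pos (le_max_right _ _)) hb ε hε
  filter_upwards [eventually_ge_atTop x₀] with x hx
  refine le_trans ?_ (hx₀ x hx)
  have : cnt (-1) κ' x ≤ cnt (-(max C0 1)) κ' x := by
    refine ncard_mono x fun n hn he => exc_mono hn ?_ he
    have h5 := one_lt_log hn
    have h6 : 0 < (Real.log n) ^ (-κ') := Real.rpow_pos_of_pos (by linarith) _
    have h7 := le_max_right C0 1
    nlinarith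
  exact_mod_cast this

lemma triv_ev (P : ℕ → Prop) {ε : ℝ} (hε : 0 < ε) :
    ∀ᶠ x : ℝ in atTop, (({n : ℕ | 3 ≤ n ∧ (n : ℝ) ≤ x ∧ P n}).ncard : ℝ) ≤ Real.exp ((Real.log x) ^ (1 + ε)) := by
  filter_upwards [eventually_ge_atTop 1, Real.tendsto_log_atTop.eventually_ge_atTop 1] with x hx hL
  refine (cnt_triv P hx).trans (Real.exp_le_exp.mpr ?_)
  calc Real.log x = (Real.log x) ^ (1:ℝ) := (Real.rpow_one _).symm
    _ ≤ (Real.log x) ^ (1 + ε) := Real.rpow_le_rpow_of_exponent_le hL (by linarith)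

lemma rpow_ev {b c : ℝ} (h : b ≤ c) : ∀ᶠ x : ℝ in atTop, Real.exp ((Real.log x) ^ b) ≤ Real.exp ((Real.log x) ^ c) := by
  filter_upwards [Real.tendsto_log_atTop.eventually_ge_atTop 1] with x hx
  exact Real.exp_le_exp.mpr (Real.rpow_le_rpow_of_exponent_le hx h)

/-- upper bound with exponent `1 - min κ (1-Θ) / 2` for `c = -1` -/
lemma upper_A (hU : Upper) (hN : NicUp) {κ : ℝ} (h0 : 0 < κ) {ε : ℝ} (hε : 0 < ε) :
    ∀ᶠ x : ℝ in atTop, (cnt (-1) κ x : ℝ) ≤ Real.exp ((Real.log x) ^ (1 - min κ (1 - zetaSup) / 2 + ε)) := by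
  have hz := zetaSup_le_one
  set m := min κ (1 - zetaSup) with hm
  have hm0 : 0 ≤ m := le_min h0.le (by linarith)
  rcases hm0.eq_or_lt with h | h
  · rw [← h]
    have := triv_ev (Exc (-1) κ) hε
    filter_upwards [this] with x hx
    have e : (1:ℝ) - 0 / 2 + ε = 1 + ε := by ring
    rw [e]
    exact hx
  · have hmk : m ≤ κ := min_le_left _ _
    have hmz : m ≤ 1 - zetaSup := min_le_right _ _
    set e := min (m / 2) ε with he
    have he0 : 0 < e := lt_min (by linarith) hε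
    have he1 : e ≤ m / 2 := min_le_left _ _
    have he2 : e ≤ ε := min_le_right _ _
    filter_upwards [upper_neg hU hN (κ' := m - e) (by linarith) (by linarith) (ε := ε / 2) (by linarith),
      rpow_ev (b := 1 - (m - e) / 2 + ε / 2) (c := 1 - m / 2 + ε) (by linarith)] with x h1 h2
    refine le_trans ?_ (h1.trans h2)
    have : cnt (-1) κ x ≤ cnt (-1) (m - e) x := by
      refine ncard_mono x fun n hn hex => exc_mono hn ?_ hex
      have h5 := one_lt_log hn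
      have h6 : (Real.log n) ^ (-κ) ≤ (Real.log n) ^ (-(m - e)) :=
        Real.rpow_le_rpow_of_exponent_le h5.le (by linarith)
      linarith
    exact_mod_cast this

lemma upper_B (hU : Upper) (hN : NicUp) {c : ℝ} (hc : 0 ≤ c) (κ : ℝ) {ε : ℝ} (hε : 0 < ε) :
    ∀ᶠ x : ℝ in atTop, (cnt c κ x : ℝ) ≤ Real.exp ((Real.log x) ^ ((1 + zetaSup) / 2 + ε)) := by
  have hz := half_le_zetaSup
  filter_upwards [upper_A hU hN (κ := 1) one_pos hε] with x hx
  have e : 1 - min 1 (1 - zetaSup) / 2 + ε = (1 + zetaSup) / 2 + ε := by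
    rw [min_eq_right (by linarith)]; ring
  rw [e] at hx
  refine le_trans ?_ hx
  have : cnt c κ x ≤ cnt (-1) 1 x :=
    ncard_mono x fun n hn hex => exc_nonneg_to hc hn hex (by norm_num)
  exact_mod_cast this

/-! ### the general lower bound -/

lemma lower_gen {P : ℕ → Prop} {T : ℝ → Set ℕ} {a ε₁ ε : ℝ} (ha0 : 0 ≤ a) (ha : a ≤ 1) (h10 : 0 < ε₁)
    (h11 : ε₁ < 1) (hε : ε₁ < ε)
    (hsub : ∀ y x : ℝ, 0 < x → 20 ≤ y → 2 * y ≤ Real.log x → T y ⊆ {n : ℕ | 3 ≤ n ∧ (n : ℝ) ≤ x ∧ P n})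
    (h : ∀ᶠ Y : ℝ in atTop, ∃ y, Y ^ (1 - ε₁) ≤ y ∧ y ≤ Y ∧ Real.exp (y ^ a) ≤ ((T y).ncard : ℝ)) :
    ∀ᶠ x : ℝ in atTop, Real.exp ((Real.log x) ^ (a - ε)) ≤
      (({n : ℕ | 3 ≤ n ∧ (n : ℝ) ≤ x ∧ P n}).ncard : ℝ) := by
  have hT : Tendsto (fun x : ℝ => Real.log x / 2) atTop atTop :=
    Real.tendsto_log_atTop.atTop_div_const (by norm_num)
  have h2 : ∀ᶠ Y : ℝ in atTop, (20:ℝ) ≤ Y ^ (1 - ε₁) :=
    (tendsto_rpow_atTop (by linarith)).eventually_ge_atTop 20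
  have h3 : ∀ᶠ Y : ℝ in atTop, (2:ℝ) ≤ Y ^ (ε - ε₁) :=
    (tendsto_rpow_atTop (by linarith)).eventually_ge_atTop 2
  filter_upwards [hT.eventually h, hT.eventually h2, hT.eventually h3, hT.eventually (eventually_ge_atTop 1),
    eventually_gt_atTop 0] with x h h2 h3 hY1 hx0
  set Y := Real.log x / 2 with hY
  obtain ⟨y, hy1, hy2, hy3⟩ := h
  have hy20 : 20 ≤ y := h2.trans hy1
  have hLY : Real.log x = 2 * Y := by rw [hY]; ring
  have hsub' := hsub y x hx0 hy20 (by rw [hLY]; linarith)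
  have hc : ((T y).ncard : ℝ) ≤ (({n : ℕ | 3 ≤ n ∧ (n : ℝ) ≤ x ∧ P n}).ncard : ℝ) := by
    exact_mod_cast Set.ncard_le_ncard hsub' (fin_le P x)
  refine le_trans (Real.exp_le_exp.mpr ?_) (hy3.trans hc)
  have hY0 : 0 < Y := by linarith
  have s1 : (Y ^ (1 - ε₁)) ^ a ≤ y ^ a := Real.rpow_le_rpow (by positivity) hy1 ha0
  have s2 : Y ^ (a - ε₁) ≤ (Y ^ (1 - ε₁)) ^ a := by
    rw [← Real.rpow_mul hY0.le]
    apply Real.rpow_le_rpow_of_exponent_le hY1
    nlinarith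
  have s3 : (2 * Y) ^ (a - ε) ≤ Y ^ (a - ε₁) := by
    have e1 : Y ^ (a - ε₁) = Y ^ (a - ε) * Y ^ (ε - ε₁) := by
      rw [← Real.rpow_add hY0]; congr 1; ring
    rw [e1, Real.mul_rpow (by norm_num) hY0.le, mul_comm]
    apply mul_le_mul_of_nonneg_left _ (by positivity)
    refine le_trans ?_ h3
    calc (2:ℝ) ^ (a - ε) ≤ (2:ℝ) ^ (1:ℝ) := Real.rpow_le_rpow_of_exponent_le (by norm_num) (by linarith)
      _ = 2 := Real.rpow_one _
  rw [hLY]
  exact s3.trans (s2.trans s1)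

/-- `Near y B` consists of integers counted by `cnt c κ x`. -/
lemma near_sub {c κ y B x : ℝ} (hx0 : 0 < x) (hy : 20 ≤ y) (hx : 2 * y ≤ Real.log x)
    (hB : ∀ L : ℝ, y / 2 ≤ L → L ≤ 2 * y → 1 + c * L ^ (-κ) ≤ Real.exp (-B)) :
    Near y B ⊆ {n : ℕ | 3 ≤ n ∧ (n : ℝ) ≤ x ∧ Exc c κ n} := by
  rintro n ⟨h1, h2, h3⟩
  have hL : 10 ≤ Real.log n := by linarith
  have hn0 : n ≠ 0 := by
    rintro rfl
    simp at hL
    linarith
  have hn : (0:ℝ) < n := by exact_mod_cast Nat.pos_of_ne_zero hn0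
  have hnx : (n:ℝ) ≤ x := by
    have : Real.log n ≤ Real.log x := h2.trans hx
    exact (Real.log_le_log_iff hn hx0).mp this
  have hn3 : 3 ≤ n := by
    have : (3:ℝ) ≤ n := by
      rw [← Real.log_le_log_iff (by norm_num) hn]
      have : Real.log 3 ≤ 3 - 1 := Real.log_le_sub_one_of_pos (by norm_num)
      linarith
    exact_mod_cast this
  refine ⟨hn3, hnx, ?_⟩
  unfold Exc
  have hll : 0 < Real.log (Real.log n) := Real.log_pos (by linarith)
  have hphi : 0 < (Nat.totient n : ℝ) := by exact_mod_cast Nat.totient_pos.mpr (by omega)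
  have hr : 0 < (n:ℝ) / Nat.totient n := by positivity
  have h4 := Real.exp_le_exp.mpr h3
  rw [Real.exp_log hr, sub_eq_add_neg, Real.exp_add, Real.exp_add, Real.exp_log hll] at h4
  refine le_trans ?_ h4
  apply mul_le_mul_of_nonneg_left (hB _ h1 h2)
  have := Real.exp_pos Real.eulerMascheroniConstant
  positivity

end

end Pool.Agent.H295R2.Nic
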