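import Pool.Agent.H295R2.T6b

set_option autoImplicit false

open Filter Topology Set

namespace Pool.Agent.H295R2

noncomputable section

lemma zeta_zero_symm {s : ℂ} (hz : riemannZeta s = 0) (h0 : 0 < s.re) (h1 : s.re < 1) :
    riemannZeta (1 - s) = 0 := by
  rw [riemannZeta_one_sub, hz, mul_zero]
  · intro n h
    rw [h] at h0
    simp at h0
    have : (0:ℝ) ≤ n := by positivity
    linarith
  · rintro rfl
    simp at h1

lemma zeta_trivial {s : ℂ} (hz : riemannZeta s = 0) (h0 : s.re ≤ 0) : ∃ n : ℕ, s = -2 * (n + 1) := by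
  have hs0 : s ≠ 0 := by
    rintro rfl
    rw [riemannZeta_zero] at hz
    norm_num at hz
  have hre : (1:ℝ) ≤ (1 - s).re := by simp; linarith
  have h1 : riemannZeta s = 2 * (2 * Real.pi) ^ (-(1 - s)) * Complex.Gamma (1 - s) *
      Complex.cos (Real.pi * (1 - s) / 2) * riemannZeta (1 - s) := by
    have := riemannZeta_one_sub (s := 1 - s) (fun n h => by
      rw [h] at hre
      simp at hre
      have : (0:ℝ) ≤ n := by positivity
      linarith) (fun h => hs0 (by linear_combination -h))
    rw [sub_sub_cancel] at this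
    exact this
  have h2 : riemannZeta (1 - s) ≠ 0 := riemannZeta_ne_zero_of_one_le_re hre
  have h3 : Complex.Gamma (1 - s) ≠ 0 := Complex.Gamma_ne_zero_of_re_pos (by linarith)
  have h4 : ((2 : ℂ) * Real.pi) ^ (-(1 - s)) ≠ 0 := by
    rw [Complex.cpow_def_of_ne_zero]
    · exact Complex.exp_ne_zero _
    · norm_num [Real.pi_ne_zero]
  rw [hz] at h1
  have h5 : Complex.cos (Real.pi * (1 - s) / 2) = 0 := by
    by_contra hc
    exact (mul_ne_zero (mul_ne_zero (mul_ne_zero (mul_ne_zero two_ne_zero h4) h3) hc) h2) h1.symm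
  rw [Complex.cos_eq_zero_iff] at h5
  obtain ⟨k, hk⟩ := h5
  have hpi : (Real.pi : ℂ) ≠ 0 := by exact_mod_cast Real.pi_ne_zero
  have h6 : s = -2 * k := by
    have : (Real.pi : ℂ) * (1 - s) = (2 * k + 1) * Real.pi := by linear_combination 2 * hk
    have h7 : (1 - s) = 2 * k + 1 := by
      apply mul_left_cancel₀ hpi
      rw [this]; ring
    linear_combination -h7
  have hk1 : 0 < k := by
    by_contra hc
    have hk0 : k ≤ 0 := not_lt.mp hc
    rcases hk0.eq_or_lt with h | h
    · apply hs0
      rw [h6, h]; simp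
    · have : s.re = -2 * (k:ℝ) := by rw [h6]; simp
      have h8 : (k:ℝ) < 0 := by exact_mod_cast h
      linarith
  refine ⟨(k - 1).toNat, ?_⟩
  have h9 : (((k - 1).toNat : ℤ)) = k - 1 := Int.toNat_of_nonneg (by omega)
  have h10 : (((k - 1).toNat : ℕ) : ℂ) = (k : ℂ) - 1 := by
    have := congrArg (fun z : ℤ => (z : ℂ)) h9
    push_cast at this
    exact this
  rw [h10, h6]; ring

theorem rh_iff_zetaSup : RiemannHypothesis ↔ zetaSup = 1 / 2 := by
  constructor
  · intro h
    refine le_antisymm ?_ half_le_zetaSup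
    apply csSup_le zset_nonempty
    rintro x ⟨s, hs, rfl⟩
    refine le_of_eq (h s hs.1 ?_ ?_)
    · rintro ⟨n, hn⟩
      have h1 := hs.2.1
      rw [hn] at h1
      simp at h1
      have : (0:ℝ) ≤ n := by positivity
      linarith
    · rintro rfl
      have := hs.2.2
      simp at this
  · intro h s hz hnt h1
    have hlt : s.re < 1 := by
      by_contra hc
      exact riemannZeta_ne_zero_of_one_le_re (not_lt.mp hc) hz
    have hpos : 0 < s.re := by
      by_contra hc
      exact hnt (zeta_trivial hz (not_lt.mp hc))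
    have a1 : s.re ≤ zetaSup := le_csSup zset_bdd ⟨s, ⟨hz, hpos, hlt⟩, rfl⟩
    have a2 : (1 - s).re ≤ zetaSup :=
      le_csSup zset_bdd ⟨1 - s, ⟨zeta_zero_symm hz hpos hlt, by simp; linarith, by simp; linarith⟩, rfl⟩
    simp at a2
    rw [h] at a1 a2
    linarith

end

end Pool.Agent.H295R2
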