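import Pool.Agent.H295R2.Nic.Asm1
import Pool.Agent.H295R2.Nic.RHEq

/-!
# Assembly, part 2: lower bounds
-/

set_option autoImplicit false

open MeasureTheory Filter Topology Set

namespace Pool.Agent.H295R2.Nic

open Pool.Agent.H295R2

noncomputable section

lemma pow_ev (C : ℝ) {b1 b2 : ℝ} (h : b2 < b1) : ∀ᶠ y : ℝ in atTop, C * y ^ b2 ≤ y ^ b1 := by
  filter_upwards [(tendsto_rpow_atTop (sub_pos.mpr h)).eventually_ge_atTop C, eventually_gt_atTop 0] with y h1 hy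
  have e : y ^ b1 = y ^ (b1 - b2) * y ^ b2 := by rw [← Real.rpow_add hy]; congr 1; ring
  rw [e]
  exact mul_le_mul_of_nonneg_right h1 (by positivity)

lemma ev_window {P : ℝ → Prop} (h : ∀ᶠ y : ℝ in atTop, P y) {ε₁ : ℝ} (h1 : ε₁ < 1) :
    ∀ᶠ Y : ℝ in atTop, ∀ y, Y ^ (1 - ε₁) ≤ y → P y := by
  obtain ⟨y0, hy0⟩ := eventually_atTop.mp h
  filter_upwards [(tendsto_rpow_atTop (sub_pos.mpr h1)).eventually_ge_atTop y0] with Y hY y hy
  exact hy0 y (hY.trans hy)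

lemma exp_mono_ev {a b : ℝ} (h : a ≤ b) : ∀ᶠ y : ℝ in atTop, Real.exp (y ^ a) ≤ Real.exp (y ^ b) := by
  filter_upwards [eventually_ge_atTop 1] with y hy
  exact Real.exp_le_exp.mpr (Real.rpow_le_rpow_of_exponent_le hy h)

lemma key1 (hTh : ThetaB) (hS : LoShort) (hL : LoLong) {a κ : ℝ} (ha : a < (1 + zetaSup) / 2)
    (hκ : 1 - zetaSup < κ) : ∃ κ' : ℝ, 1 - zetaSup < κ' ∧ κ' < κ ∧ ∀ᶠ y : ℝ in atTop, ∀ B : ℝ,
      y ^ (-κ') ≤ fN y + B → Real.exp (y ^ a) ≤ ((Near y B).ncard : ℝ) := by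
  have hz2 := half_le_zetaSup
  rcases zetaSup_le_one.eq_or_lt with h | h
  · rw [h] at ha hκ ⊢
    set e := min (min ((1 - a) / 4) (κ / 4)) (1 / 8) with he
    have he0 : 0 < e := lt_min (lt_min (by linarith) (by linarith)) (by norm_num)
    have he1 : e ≤ (1 - a) / 4 := (min_le_left _ _).trans (min_le_left _ _)
    have he2 : e ≤ κ / 4 := (min_le_left _ _).trans (min_le_right _ _)
    have he3 : e ≤ 1 / 8 := min_le_right _ _
    obtain ⟨Y₀, hY₀⟩ := hL (2 * e) e (by linarith) (by linarith) he0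
    refine ⟨2 * e, by linarith, by linarith, ?_⟩
    filter_upwards [eventually_ge_atTop Y₀, exp_mono_ev (a := a) (b := 1 - 2 * e - e) (by linarith)] with y hy h2 B hB
    exact h2.trans (hY₀ y B hy hB)
  · set e := min (min (((1 + zetaSup) / 2 - a) / 4) ((κ - (1 - zetaSup)) / 4)) ((1 - zetaSup) / 8) with he
    have he0 : 0 < e := lt_min (lt_min (by linarith) (by linarith)) (by linarith)
    have he1 : e ≤ ((1 + zetaSup) / 2 - a) / 4 := (min_le_left _ _).trans (min_le_left _ _)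
    have he2 : e ≤ (κ - (1 - zetaSup)) / 4 := (min_le_left _ _).trans (min_le_right _ _)
    have he3 : e ≤ (1 - zetaSup) / 8 := min_le_right _ _
    obtain ⟨Y₀, hY₀⟩ := hS (zetaSup + e) (1 - zetaSup + 2 * e) e (by linarith) (by linarith) (by linarith)
      (by linarith) he0 (hTh (zetaSup + e) (by linarith))
    refine ⟨1 - zetaSup + 2 * e, by linarith, by linarith, ?_⟩
    filter_upwards [eventually_ge_atTop Y₀, exp_mono_ev (a := a) (b := 1 - (1 - zetaSup + 2 * e) / 2 - e)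
      (by linarith)] with y hy h2 B hB
    exact h2.trans (hY₀ y B hy hB)

lemma key1R (hTh : ThetaB) (hS : RobShort) (hL : RobLong) (hhalf : 1 / 2 < zetaSup) {a : ℝ}
    (ha : a < (1 + zetaSup) / 2) : ∃ κ' : ℝ, 1 - zetaSup < κ' ∧ ∀ᶠ y : ℝ in atTop,
      y ^ (-κ') ≤ fN y → Real.exp (y ^ a) ≤ ((NearR y).ncard : ℝ) := by
  rcases zetaSup_le_one.eq_or_lt with h | h
  · rw [h] at ha ⊢
    set e := min ((1 - a) / 4) (1 / 8) with he
    have he0 : 0 < e := lt_min (by linarith) (by norm_num)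
    have he1 : e ≤ (1 - a) / 4 := min_le_left _ _
    have he3 : e ≤ 1 / 8 := min_le_right _ _
    obtain ⟨Y₀, hY₀⟩ := hL (2 * e) e (by linarith) (by linarith) he0
    refine ⟨2 * e, by linarith, ?_⟩
    filter_upwards [eventually_ge_atTop Y₀, exp_mono_ev (a := a) (b := 1 - 2 * e - e) (by linarith)] with y hy h2 hB
    exact h2.trans (hY₀ y hy hB)
  · set e := min (min (((1 + zetaSup) / 2 - a) / 4) ((zetaSup - 1 / 2) / 4)) ((1 - zetaSup) / 8) with he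
    have he0 : 0 < e := lt_min (lt_min (by linarith) (by linarith)) (by linarith)
    have he1 : e ≤ ((1 + zetaSup) / 2 - a) / 4 := (min_le_left _ _).trans (min_le_left _ _)
    have he2 : e ≤ (zetaSup - 1 / 2) / 4 := (min_le_left _ _).trans (min_le_right _ _)
    have he3 : e ≤ (1 - zetaSup) / 8 := min_le_right _ _
    obtain ⟨Y₀, hY₀⟩ := hS (zetaSup + e) (1 - zetaSup + 2 * e) e (by linarith) (by linarith) (by linarith)
      (by linarith) he0 (hTh (zetaSup + e) (by linarith))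
    refine ⟨1 - zetaSup + 2 * e, by linarith, ?_⟩
    filter_upwards [eventually_ge_atTop Y₀, exp_mono_ev (a := a) (b := 1 - (1 - zetaSup + 2 * e) / 2 - e)
      (by linarith)] with y hy h2 hB
    exact h2.trans (hY₀ y hy hB)

lemma key2 (hTh : ThetaB) (hS : LoShort) {a κ : ℝ} (hκ0 : 0 < κ) (ha : a < 1 - κ / 2) (hκ : κ < 1 - zetaSup) :
    ∃ κ' : ℝ, κ < κ' ∧ ∀ᶠ y : ℝ in atTop, ∀ B : ℝ,
      y ^ (-κ') ≤ fN y + B → Real.exp (y ^ a) ≤ ((Near y B).ncard : ℝ) := by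
  have hz2 := half_le_zetaSup
  set e := min ((1 - κ / 2 - a) / 4) ((1 - zetaSup - κ) / 4) with he
  have he0 : 0 < e := lt_min (by linarith) (by linarith)
  have he1 : e ≤ (1 - κ / 2 - a) / 4 := min_le_left _ _
  have he2 : e ≤ (1 - zetaSup - κ) / 4 := min_le_right _ _
  obtain ⟨Y₀, hY₀⟩ := hS (zetaSup + (1 - zetaSup) / 4) (κ + e) e (by linarith) (by linarith) (by linarith)
    (by linarith) he0 (hTh _ (by linarith))
  refine ⟨κ + e, by linarith, ?_⟩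
  filter_upwards [eventually_ge_atTop Y₀, exp_mono_ev (a := a) (b := 1 - (κ + e) / 2 - e)
    (by linarith)] with y hy h2 B hB
  exact h2.trans (hY₀ y B hy hB)

/-- large values of `fN` in every window -/
lemma osc_fN (hO : Osc) (hNL : NicLow) {κ' : ℝ} (hκ : 1 - zetaSup < κ') {ε₁ : ℝ} (h0 : 0 < ε₁) (h1 : ε₁ < 1) :
    ∀ᶠ Y : ℝ in atTop, ∃ y, Y ^ (1 - ε₁) ≤ y ∧ y ≤ Y ∧ 2 * y ^ (-κ') ≤ fN y := by
  obtain ⟨Y₀, hY₀⟩ := hO ((κ' - (1 - zetaSup)) / 2) ε₁ (by linarith) h0 h1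
  obtain ⟨y₀, hy₀⟩ := hNL
  filter_upwards [eventually_ge_atTop Y₀, ev_window (eventually_ge_atTop y₀) h1,
    ev_window (pow_ev 2 (b1 := zetaSup - 1 - (κ' - (1 - zetaSup)) / 2) (b2 := -κ') (by linarith)) h1]
    with Y hY h2 h3
  obtain ⟨y, hy1, hy2, hy3⟩ := hY₀ Y hY
  exact ⟨y, hy1, hy2, (h3 y hy1).trans (hy3.trans (hy₀ y (h2 y hy1)))⟩

/-- lower bound for small perturbations -/
lemma low_main (hTh : ThetaB) (hS : LoShort) (hL : LoLong) (hO : Osc) (hNL : NicLow) (B : ℝ → ℝ)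
    {κ C : ℝ} (hκ : 1 - zetaSup < κ) (hB : ∀ y : ℝ, 1 ≤ y → |B y| ≤ C * y ^ (-κ)) {a : ℝ}
    (ha : a < (1 + zetaSup) / 2) {ε₁ : ℝ} (h0 : 0 < ε₁) (h1 : ε₁ < 1) :
    ∀ᶠ Y : ℝ in atTop, ∃ y, Y ^ (1 - ε₁) ≤ y ∧ y ≤ Y ∧ Real.exp (y ^ a) ≤ ((Near y (B y)).ncard : ℝ) := by
  obtain ⟨κ', hκ1, hκ2, hk⟩ := key1 hTh hS hL ha hκ
  filter_upwards [osc_fN hO hNL hκ1 h0 h1, ev_window hk h1, ev_window (eventually_ge_atTop 1) h1,
    ev_window (pow_ev C (b1 := -κ') (b2 := -κ) (by linarith)) h1] with Y hY h2 h3 h4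
  obtain ⟨y, hy1, hy2, hy3⟩ := hY
  refine ⟨y, hy1, hy2, h2 y hy1 (B y) ?_⟩
  have h5 := hB y (h3 y hy1)
  have h6 := h4 y hy1
  have h7 := neg_abs_le (B y)
  linarith

/-- lower bound for the number of `n` with `Exc c κ n` -/
lemma lower_B (hTh : ThetaB) (hS : LoShort) (hL : LoLong) (hO : Osc) (hNL : NicLow) (B : ℝ → ℝ)
    {c κ κ₁ C : ℝ} (hκ : 1 - zetaSup < κ₁) (hB : ∀ y : ℝ, 1 ≤ y → |B y| ≤ C * y ^ (-κ₁))
    (hB2 : ∀ y : ℝ, 20 ≤ y → ∀ L : ℝ, y / 2 ≤ L → L ≤ 2 * y → 1 + c * L ^ (-κ) ≤ Real.exp (-(B y)))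
    {ε : ℝ} (hε : 0 < ε) :
    ∀ᶠ x : ℝ in atTop, Real.exp ((Real.log x) ^ ((1 + zetaSup) / 2 - ε)) ≤ (cnt c κ x : ℝ) := by
  have hz1 := zetaSup_le_one
  have hz2 := half_le_zetaSup
  set e := min (ε / 4) (1 / 4) with he
  have he0 : 0 < e := lt_min (by linarith) (by norm_num)
  have he1 : e ≤ ε / 4 := min_le_left _ _
  have he2 : e ≤ 1 / 4 := min_le_right _ _
  have h := low_main hTh hS hL hO hNL B hκ hB (a := (1 + zetaSup) / 2 - e) (by linarith) he0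
    (show e < 1 by linarith)
  have h' := lower_gen (P := Exc c κ) (T := fun y => Near y (B y)) (ε := 2 * e) (by linarith) (by linarith) he0
    (by linarith) (by linarith) (fun y x hx hy hxy => near_sub hx hy hxy (hB2 y hy)) h
  filter_upwards [h', rpow_ev (b := (1 + zetaSup) / 2 - ε) (c := (1 + zetaSup) / 2 - e - 2 * e) (by linarith)]
    with x h2 h3
  exact h3.trans h2

lemma lower_zero (hTh : ThetaB) (hS : LoShort) (hL : LoLong) (hO : Osc) (hNL : NicLow) (κ : ℝ) {ε : ℝ}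
    (hε : 0 < ε) :
    ∀ᶠ x : ℝ in atTop, Real.exp ((Real.log x) ^ ((1 + zetaSup) / 2 - ε)) ≤ (cnt 0 κ x : ℝ) := by
  refine lower_B hTh hS hL hO hNL (fun _ => 0) (κ₁ := 1) (C := 0) (by linarith [half_le_zetaSup]) ?_ ?_ hε
  · intro y _; simp
  · intro y _ L _ _; simp

lemma lower_pos (hTh : ThetaB) (hS : LoShort) (hL : LoLong) (hO : Osc) (hNL : NicLow) {c κ : ℝ} (hc : 0 ≤ c)
    (hκ : 1 - zetaSup < κ) {ε : ℝ} (hε : 0 < ε) :
    ∀ᶠ x : ℝ in atTop, Real.exp ((Real.log x) ^ ((1 + zetaSup) / 2 - ε)) ≤ (cnt c κ x : ℝ) := by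
  have hz1 := zetaSup_le_one
  have hκ0 : 0 < κ := by linarith
  refine lower_B hTh hS hL hO hNL (fun y => -(c * (y / 2) ^ (-κ))) (κ₁ := κ) (C := c * 2 ^ κ) hκ ?_ ?_ hε
  · intro y hy
    have e : (y / 2) ^ (-κ) = 2 ^ κ * y ^ (-κ) := by
      rw [Real.div_rpow (by linarith) (by norm_num), Real.rpow_neg (by norm_num : (0:ℝ) ≤ 2), div_inv_eq_mul,
        mul_comm]
    rw [abs_neg, abs_of_nonneg (by positivity), e, mul_assoc]
  · intro y hy L h1 h2
    have h3 : L ^ (-κ) ≤ (y / 2) ^ (-κ) :=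
      Real.rpow_le_rpow_of_nonpos (by linarith) h1 (by linarith)
    have h4 : c * L ^ (-κ) ≤ c * (y / 2) ^ (-κ) := mul_le_mul_of_nonneg_left h3 hc
    have h5 := Real.add_one_le_exp (c * (y / 2) ^ (-κ))
    rw [neg_neg]
    linarith

lemma lower_neg (hTh : ThetaB) (hS : LoShort) (hNU : NicUp) {κ : ℝ} (hκ0 : 0 < κ) (hκ : κ < 1 - zetaSup)
    {ε : ℝ} (hε : 0 < ε) :
    ∀ᶠ x : ℝ in atTop, Real.exp ((Real.log x) ^ (1 - κ / 2 - ε)) ≤ (cnt (-1) κ x : ℝ) := by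
  have hz2 := half_le_zetaSup
  set e := min (ε / 4) (1 / 8) with he
  have he0 : 0 < e := lt_min (by linarith) (by norm_num)
  have he1 : e ≤ ε / 4 := min_le_left _ _
  have he2 : e ≤ 1 / 8 := min_le_right _ _
  obtain ⟨κ', hκ1, hk⟩ := key2 hTh hS (a := 1 - κ / 2 - e) hκ0 (by linarith) hκ
  obtain ⟨C, hC⟩ := hNU ((zetaSup + (1 - κ)) / 2) (by linarith) (by linarith)
  have h : ∀ᶠ Y : ℝ in atTop, ∃ y, Y ^ (1 - e) ≤ y ∧ y ≤ Y ∧
      Real.exp (y ^ (1 - κ / 2 - e)) ≤ ((Near y ((2 * y) ^ (-κ))).ncard : ℝ) := by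
    filter_upwards [hk, eventually_ge_atTop 4,
      pow_ev (2 * 2 ^ κ) (b1 := -κ) (b2 := -κ') (by linarith),
      pow_ev (2 * C * 2 ^ κ) (b1 := -κ) (b2 := (zetaSup + (1 - κ)) / 2 - 1) (by linarith)] with Y h1 h4 h5 h6
    refine ⟨Y, ?_, le_rfl, h1 _ ?_⟩
    · calc Y ^ (1 - e) ≤ Y ^ (1:ℝ) := Real.rpow_le_rpow_of_exponent_le (by linarith) (by linarith)
        _ = Y := Real.rpow_one _
    · have h7 := (abs_le.mp (hC Y h4)).1
      have e1 : (2 * Y) ^ (-κ) = (2 ^ κ)⁻¹ * Y ^ (-κ) := by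
        rw [Real.mul_rpow (by norm_num) (by linarith), Real.rpow_neg (by norm_num : (0:ℝ) ≤ 2)]
      have h2k : (0:ℝ) < 2 ^ κ := by positivity
      have h8 : Y ^ (-κ') ≤ (2 ^ κ)⁻¹ * Y ^ (-κ) / 2 := by
        have : Y ^ (-κ') = (2 ^ κ)⁻¹ * (2 * 2 ^ κ * Y ^ (-κ')) / 2 := by field_simp
        rw [this]
        gcongr
      have h9 : C * Y ^ ((zetaSup + (1 - κ)) / 2 - 1) ≤ (2 ^ κ)⁻¹ * Y ^ (-κ) / 2 := by
        have : C * Y ^ ((zetaSup + (1 - κ)) / 2 - 1) =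
            (2 ^ κ)⁻¹ * (2 * C * 2 ^ κ * Y ^ ((zetaSup + (1 - κ)) / 2 - 1)) / 2 := by field_simp
        rw [this]
        gcongr
      rw [e1]
      linarith
  have h' := lower_gen (P := Exc (-1) κ) (T := fun y => Near y ((2 * y) ^ (-κ))) (ε := 2 * e) (by linarith)
    (by linarith) he0 (by linarith) (by linarith) (fun y x hx hy hxy => near_sub hx hy hxy ?_) h
  · filter_upwards [h', rpow_ev (b := 1 - κ / 2 - ε) (c := 1 - κ / 2 - e - 2 * e) (by linarith)] with x h2 h3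
    exact h3.trans h2
  · intro L h1 h2
    have h3 : (2 * y) ^ (-κ) ≤ L ^ (-κ) := Real.rpow_le_rpow_of_nonpos (by linarith) h2 (by linarith)
    have h4 := Real.add_one_le_exp (-((2 * y) ^ (-κ)))
    linarith

/-! ### Robin -/

/-- `σ(n) φ(n) ≤ n²` -/
def SigPhi : Prop := ∀ n : ℕ, 1 ≤ n → ArithmeticFunction.sigma 1 n * Nat.totient n ≤ n ^ 2

lemma robin_sub (h : SigPhi) {n : ℕ} (hn : 3 ≤ n) (κ : ℝ) (he : ExcR n) : Exc 0 κ n := by
  unfold ExcR at he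
  unfold Exc
  have hn0 : (0:ℝ) < n := by
    have : 0 < n := by omega
    exact_mod_cast this
  have hphi : 0 < (Nat.totient n : ℝ) := by exact_mod_cast Nat.totient_pos.mpr (by omega)
  have h1 : (ArithmeticFunction.sigma 1 n : ℝ) * Nat.totient n ≤ (n:ℝ) ^ 2 := by exact_mod_cast h n (by omega)
  rw [zero_mul, add_zero, mul_one, le_div_iff₀ hphi]
  have h2 : Real.exp Real.eulerMascheroniConstant * n * Real.log (Real.log n) * Nat.totient n ≤ (n:ℝ) ^ 2 :=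
    le_trans (mul_le_mul_of_nonneg_right he hphi.le) h1
  have h3 : Real.exp Real.eulerMascheroniConstant * Real.log (Real.log n) * Nat.totient n * n ≤ n * n := by
    nlinarith
  exact le_of_mul_le_mul_right h3 hn0

lemma robin_upper (hU : Upper) (hN : NicUp) (h : SigPhi) {ε : ℝ} (hε : 0 < ε) :
    ∀ᶠ x : ℝ in atTop, (cntR x : ℝ) ≤ Real.exp ((Real.log x) ^ ((1 + zetaSup) / 2 + ε)) := by
  filter_upwards [upper_B hU hN (c := 0) le_rfl 1 hε] with x hx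
  refine le_trans ?_ hx
  have : cntR x ≤ cnt 0 1 x := ncard_mono x fun n hn hex => robin_sub h hn 1 hex
  exact_mod_cast this

lemma nearR_sub {y x : ℝ} (hx0 : 0 < x) (hy : 20 ≤ y) (hx : 2 * y ≤ Real.log x) :
    NearR y ⊆ {n : ℕ | 3 ≤ n ∧ (n : ℝ) ≤ x ∧ ExcR n} := by
  rintro n ⟨h1, h2, h3⟩
  have hL : 10 ≤ Real.log n := by linarith
  have hn0 : n ≠ 0 := by
    rintro rfl
    simp at hL
    linarith
  have hn : (0:ℝ) < n := by exact_mod_cast Nat.pos_of_ne_zero hn0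
  have hnx : (n:ℝ) ≤ x := by
    have : Real.log n ≤ Real.log x := h2.trans hx
    exact (Real.log_le_log_iff hn hx0).mp this
  have hn3 : 3 ≤ n := by
    have : (3:ℝ) ≤ n := by
      rw [← Real.log_le_log_iff (by norm_num) hn]
      have : Real.log 3 ≤ 3 - 1 := Real.log_le_sub_one_of_pos (by norm_num)
      linarith
    exact_mod_cast this
  refine ⟨hn3, hnx, ?_⟩
  unfold ExcR
  have hll : 0 < Real.log (Real.log n) := Real.log_pos (by linarith)
  have hsig : 0 < (ArithmeticFunction.sigma 1 n : ℝ) := by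
    have : 0 < ArithmeticFunction.sigma 1 n := by
      rw [ArithmeticFunction.sigma_pos_iff]
      omega
    exact_mod_cast this
  have hr : 0 < (ArithmeticFunction.sigma 1 n : ℝ) / n := by positivity
  have h4 := Real.exp_le_exp.mpr h3
  rw [Real.exp_log hr, Real.exp_add, Real.exp_log hll, le_div_iff₀ hn] at h4
  linarith

lemma robin_lower (hTh : ThetaB) (hS : RobShort) (hL : RobLong) (hO : Osc) (hNL : NicLow)
    (hhalf : 1 / 2 < zetaSup) {ε : ℝ} (hε : 0 < ε) :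
    ∀ᶠ x : ℝ in atTop, Real.exp ((Real.log x) ^ ((1 + zetaSup) / 2 - ε)) ≤ (cntR x : ℝ) := by
  have hz1 := zetaSup_le_one
  set e := min (ε / 4) (1 / 4) with he
  have he0 : 0 < e := lt_min (by linarith) (by norm_num)
  have he1 : e ≤ ε / 4 := min_le_left _ _
  have he2 : e ≤ 1 / 4 := min_le_right _ _
  obtain ⟨κ', hκ1, hk⟩ := key1R hTh hS hL hhalf (a := (1 + zetaSup) / 2 - e) (by linarith)
  have h : ∀ᶠ Y : ℝ in atTop, ∃ y, Y ^ (1 - e) ≤ y ∧ y ≤ Y ∧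
      Real.exp (y ^ ((1 + zetaSup) / 2 - e)) ≤ ((NearR y).ncard : ℝ) := by
    filter_upwards [osc_fN hO hNL hκ1 he0 (show e < 1 by linarith), ev_window hk (show e < 1 by linarith),
      ev_window (eventually_ge_atTop 1) (show e < 1 by linarith)] with Y hY h2 h3
    obtain ⟨y, hy1, hy2, hy3⟩ := hY
    refine ⟨y, hy1, hy2, h2 y hy1 ?_⟩
    have : 0 < y ^ (-κ') := Real.rpow_pos_of_pos (by linarith [h3 y hy1]) _
    linarith
  have h' := lower_gen (P := ExcR) (T := NearR) (ε := 2 * e) (by linarith) (by linarith) he0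
    (by linarith) (by linarith) (fun y x hx hy hxy => nearR_sub hx hy hxy) h
  filter_upwards [h', rpow_ev (b := (1 + zetaSup) / 2 - ε) (c := (1 + zetaSup) / 2 - e - 2 * e) (by linarith)]
    with x h2 h3
  exact h3.trans h2

end

end Pool.Agent.H295R2.Nic
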