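import Pool.Agent.H295R2.Nic.Asm2

/-!
# Assembly, part 3: finiteness above the threshold, `σ(n) φ(n) ≤ n²`
-/

set_option autoImplicit false

open MeasureTheory Filter Topology Set

namespace Pool.Agent.H295R2.Nic

open Pool.Agent.H295R2

noncomputable section

lemma theta_lin (hP : PsiLog) : ∀ᶠ x : ℝ in atTop, x / 2 ≤ Chebyshev.theta x := by
  obtain ⟨C, hC⟩ := Chebyshev.psi_sub_theta_le_mul_sqrt
  obtain ⟨C', hC'⟩ := hP
  filter_upwards [Real.tendsto_log_atTop.eventually_ge_atTop (4 * |C'| + 1),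
    (tendsto_rpow_atTop (show (0:ℝ) < 1 / 2 by norm_num)).eventually_ge_atTop (4 * |C|),
    eventually_ge_atTop 2] with x h1 h2 hx
  have hx0 : 0 < x := by linarith
  rw [← Real.sqrt_eq_rpow] at h2
  have h3 := (abs_le.mp (hC' x hx)).1
  have h4 := hC x
  have hL : 0 < Real.log x := by have := abs_nonneg C'; linarith
  have h5 : C' * x / Real.log x ≤ x / 4 := by
    rw [div_le_iff₀ hL]
    have := le_abs_self C'
    nlinarith
  have h6 : C * x.sqrt ≤ x / 4 := by
    have h7 : C * x.sqrt ≤ |C| * x.sqrt := mul_le_mul_of_nonneg_right (le_abs_self C) (Real.sqrt_nonneg _)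
    have h8 : |C| * x.sqrt ≤ (x.sqrt / 4) * x.sqrt :=
      mul_le_mul_of_nonneg_right (by linarith) (Real.sqrt_nonneg _)
    have h9 : (x.sqrt / 4) * x.sqrt = x / 4 := by
      have := Real.mul_self_sqrt hx0.le
      linarith
    linarith
  linarith

lemma exists_y (hP : PsiLog) {Y : ℕ} {L : ℝ}
    (hL : Chebyshev.theta Y ≤ L) : ∃ y : ℕ, Y ≤ y ∧ Chebyshev.theta y ≤ L ∧ L < Chebyshev.theta ((y:ℝ) + 1) := by
  classical
  have hex : ∃ m : ℕ, L < Chebyshev.theta m := by
    have h1 : ∀ᶠ m : ℕ in atTop, (m:ℝ) / 2 ≤ Chebyshev.theta m :=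
      tendsto_natCast_atTop_atTop.eventually (theta_lin hP)
    have h2 : ∀ᶠ m : ℕ in atTop, 2 * L < (m:ℝ) :=
      tendsto_natCast_atTop_atTop.eventually (eventually_gt_atTop (2 * L))
    obtain ⟨m, hm⟩ := (h1.and h2).exists
    exact ⟨m, by linarith [hm.1, hm.2]⟩
  have h1 := Nat.find_spec hex
  have h2 : Y < Nat.find hex := by
    by_contra hc
    have : Chebyshev.theta (Nat.find hex : ℝ) ≤ Chebyshev.theta Y :=
      Chebyshev.theta_mono (by exact_mod_cast not_lt.mp hc)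
    linarith
  refine ⟨Nat.find hex - 1, by omega, ?_, ?_⟩
  · exact not_lt.mp (Nat.find_min hex (show Nat.find hex - 1 < Nat.find hex by omega))
  · have : ((Nat.find hex - 1 : ℕ) : ℝ) + 1 = (Nat.find hex : ℝ) := by
      have h3 : 1 ≤ Nat.find hex := by omega
      push_cast [Nat.cast_sub h3]
      ring
    rw [this]
    exact h1

/-- above the threshold there are only finitely many exceptions -/
lemma finite_exc (hP : PsiLog) (hM : MaxN) (hNU : NicUp) {c κ : ℝ} (hc : 0 < c) (hκ0 : 0 < κ)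
    (hκ : κ < 1 - zetaSup) : {n : ℕ | 3 ≤ n ∧ Exc c κ n}.Finite := by
  have hz2 := half_le_zetaSup
  obtain ⟨C, Y₀, hC⟩ := hM
  obtain ⟨C1, hC1⟩ := hNU ((zetaSup + (1 - κ)) / 2) (by linarith) (by linarith)
  have hev : ∀ᶠ y : ℝ in atTop, (4:ℝ) ≤ y ∧ Real.log 4 * (y + 1) ≤ 3 * y ∧ c * (3 * y) ^ (-κ) ≤ 1 ∧
      10 ≤ Chebyshev.theta y ∧
      C1 * y ^ ((zetaSup + (1 - κ)) / 2 - 1) + C / y < c * (3 * y) ^ (-κ) / 2 := by
    have e3 : ∀ᶠ y : ℝ in atTop, c * (3 * y) ^ (-κ) ≤ 1 := by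
      have := (tendsto_rpow_neg_atTop hκ0).comp (tendsto_id.const_mul_atTop (show (0:ℝ) < 3 by norm_num))
      have h2 := this.const_mul c
      rw [mul_zero] at h2
      exact (h2.eventually (eventually_le_nhds one_pos)).mono fun y hy => by simpa using hy
    have e4 : ∀ᶠ y : ℝ in atTop, 10 ≤ Chebyshev.theta y := by
      filter_upwards [theta_lin hP, eventually_ge_atTop 20] with y h1 h2
      linarith
    have e5 := pow_ev (8 * C1 * 3 ^ κ / c) (b1 := -κ) (b2 := (zetaSup + (1 - κ)) / 2 - 1) (by linarith)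
    have e6 := pow_ev (8 * C * 3 ^ κ / c) (b1 := -κ) (b2 := -1) (by linarith)
    filter_upwards [e3, e4, e5, e6, eventually_ge_atTop 4] with y h3 h4 h5 h6 h7
    have hy0 : 0 < y := by linarith
    refine ⟨h7, ?_, h3, h4, ?_⟩
    · have : Real.log 4 ≤ 1.4 := by
        have : Real.log 4 = 2 * Real.log 2 := by
          rw [show (4:ℝ) = 2 ^ 2 by norm_num, Real.log_pow]; norm_num
        rw [this]
        have := Real.log_two_lt_d9
        linarith
      nlinarith
    · have e : (3 * y) ^ (-κ) = (3 ^ κ)⁻¹ * y ^ (-κ) := by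
        rw [Real.mul_rpow (by norm_num) hy0.le, Real.rpow_neg (by norm_num : (0:ℝ) ≤ 3)]
      have h3k : (0:ℝ) < 3 ^ κ := by positivity
      have hyk : 0 < y ^ (-κ) := by positivity
      have q1 : C1 * y ^ ((zetaSup + (1 - κ)) / 2 - 1) ≤ c * ((3 ^ κ)⁻¹ * y ^ (-κ)) / 8 := by
        have : C1 * y ^ ((zetaSup + (1 - κ)) / 2 - 1) =
            c * ((3 ^ κ)⁻¹ * (8 * C1 * 3 ^ κ / c * y ^ ((zetaSup + (1 - κ)) / 2 - 1))) / 8 := by
          field_simp
        rw [this]
        gcongr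
      have q2 : C / y ≤ c * ((3 ^ κ)⁻¹ * y ^ (-κ)) / 8 := by
        have : C / y = c * ((3 ^ κ)⁻¹ * (8 * C * 3 ^ κ / c * y ^ (-1 : ℝ))) / 8 := by
          rw [Real.rpow_neg_one]
          field_simp
        rw [this]
        gcongr
      have q3 : 0 < c * ((3 ^ κ)⁻¹ * y ^ (-κ)) := by positivity
      rw [e]
      linarith
  obtain ⟨Y1, hY1⟩ := eventually_atTop.mp hev
  set Y : ℕ := max Y₀ ⌈Y1⌉₊ with hY
  -- every exceptional `n` has `log n < θ(Y)`
  refine (Set.finite_Iic ⌊Real.exp (Chebyshev.theta Y)⌋₊).subset ?_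
  rintro n ⟨hn3, hn⟩
  apply Nat.le_floor
  have hn0 : (0:ℝ) < n := by
    have : 0 < n := by omega
    exact_mod_cast this
  rw [← Real.log_le_iff_le_exp hn0]
  by_contra hcon
  obtain ⟨y, hy1, hy2, hy3⟩ := exists_y hP (not_le.mp hcon).le
  have hyY : Y1 ≤ (y:ℝ) := by
    have h1 : ⌈Y1⌉₊ ≤ y := (le_max_right _ _).trans hy1
    exact (Nat.le_ceil Y1).trans (by exact_mod_cast h1)
  obtain ⟨a1, a2, a3, a4, a5⟩ := hY1 y hyY
  have b1 := hC n y ((le_max_left _ _).trans hy1) hy2 hy3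
  have b2 := (abs_le.mp (hC1 y a1)).2
  set L := Real.log n with hLdef
  have hL10 : 10 ≤ L := a4.trans hy2
  have hL3 : L ≤ 3 * y := by
    have := Chebyshev.theta_le_log4_mul_x (x := (y:ℝ) + 1) (by linarith)
    linarith
  have hll : 0 < Real.log L := Real.log_pos (by linarith)
  have hphi : 0 < (Nat.totient n : ℝ) := by exact_mod_cast Nat.totient_pos.mpr (by omega)
  have hr : 0 < (n:ℝ) / Nat.totient n := by positivity
  have hu : c * (3 * y) ^ (-κ) ≤ c * L ^ (-κ) := by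
    apply mul_le_mul_of_nonneg_left _ hc.le
    exact Real.rpow_le_rpow_of_nonpos (by linarith) hL3 (by linarith)
  have hu0 : 0 < c * (3 * (y:ℝ)) ^ (-κ) := by
    have : 0 < (3 * (y:ℝ)) ^ (-κ) := Real.rpow_pos_of_pos (by linarith) _
    positivity
  have hE : Real.eulerMascheroniConstant + Real.log (Real.log L) + Real.log (1 + c * L ^ (-κ)) ≤
      Real.log ((n:ℝ) / Nat.totient n) := by
    have := Real.log_le_log (by positivity) hn
    rwa [Real.log_mul (by positivity) (by positivity), Real.log_mul (by positivity) (by positivity),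
      Real.log_exp] at this
  have hlog : c * (3 * (y:ℝ)) ^ (-κ) / 2 ≤ Real.log (1 + c * L ^ (-κ)) := by
    have h1 : Real.log (1 + c * (3 * (y:ℝ)) ^ (-κ)) ≤ Real.log (1 + c * L ^ (-κ)) :=
      Real.log_le_log (by linarith) (by linarith)
    have h2 : 1 - (1 + c * (3 * (y:ℝ)) ^ (-κ))⁻¹ ≤ Real.log (1 + c * (3 * (y:ℝ)) ^ (-κ)) :=
      Real.one_sub_inv_le_log_of_pos (by linarith)
    set u := c * (3 * (y:ℝ)) ^ (-κ) with hu'
    have h3 : 1 - (1 + u)⁻¹ = u / (1 + u) := by field_simp; ring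
    have h4 : u / 2 ≤ u / (1 + u) := by
      apply div_le_div_of_nonneg_left hu0.le (by linarith) (by linarith)
    linarith
  linarith

/-- `σ(n) φ(n) ≤ n²` -/
theorem sigPhi : SigPhi := by
  intro n hn
  induction n using Nat.recOnPosPrimePosCoprime with
  | zero => omega
  | one => simp
  | prime_pow p k hp hk =>
    rw [ArithmeticFunction.sigma_one_apply_prime_pow hp, Nat.totient_prime_pow hp hk]
    have hp2 := hp.two_le
    have h1 : (∑ i ∈ Finset.range (k + 1), p ^ i) * (p - 1) = p ^ (k + 1) - 1 := by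
      have := Nat.geomSum_eq hp2 (k + 1)
      rw [this]
      exact Nat.div_mul_cancel (by simpa using Nat.sub_one_dvd_pow_sub_one p (k+1))
    calc (∑ i ∈ Finset.range (k + 1), p ^ i) * (p ^ (k - 1) * (p - 1))
        = ((∑ i ∈ Finset.range (k + 1), p ^ i) * (p - 1)) * p ^ (k - 1) := by ring
      _ = (p ^ (k + 1) - 1) * p ^ (k - 1) := by rw [h1]
      _ ≤ p ^ (k + 1) * p ^ (k - 1) := Nat.mul_le_mul_right _ (Nat.sub_le _ _)
      _ = (p ^ k) ^ 2 := by
        rw [← pow_add, ← pow_mul]; congr 1; omega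
  | coprime a b ha hb hab iha ihb =>
    rw [ArithmeticFunction.isMultiplicative_sigma.map_mul_of_coprime hab, Nat.totient_mul hab]
    have h1 := iha (by omega)
    have h2 := ihb (by omega)
    calc ArithmeticFunction.sigma 1 a * ArithmeticFunction.sigma 1 b * (a.totient * b.totient)
        = (ArithmeticFunction.sigma 1 a * a.totient) * (ArithmeticFunction.sigma 1 b * b.totient) := by ring
      _ ≤ a ^ 2 * b ^ 2 := Nat.mul_le_mul h1 h2
      _ = (a * b) ^ 2 := by ring

end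

end Pool.Agent.H295R2.Nic
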