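import Pool.Agent.H295R2.Nic.Asm3

/-!
# Assembly, part 4: the theorems, from the statements of the parts
-/

set_option autoImplicit false

open MeasureTheory Filter Topology Set

namespace Pool.Agent.H295R2.Nic

open Pool.Agent.H295R2

noncomputable section

/-- `log log N(x) / log log x → a` -/
def LL (N : ℝ → ℕ) (a : ℝ) : Prop :=
  Tendsto (fun x : ℝ => Real.log (Real.log (N x)) / Real.log (Real.log x)) atTop (𝓝 a)

theorem nicolas_zero (hTh : ThetaB) (hS : LoShort) (hL : LoLong) (hO : Osc) (hNL : NicLow) (hNU : NicUp)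
    (hU : Upper) (κ : ℝ) : LL (cnt 0 κ) ((1 + zetaSup) / 2) :=
  loglog_limit (fun _ hε => lower_zero hTh hS hL hO hNL κ hε) (fun _ hε => upper_B hU hNU le_rfl κ hε)

lemma cnt_zero_le {c κ x : ℝ} (hc : c ≤ 0) : cnt 0 κ x ≤ cnt c κ x :=
  ncard_mono x fun _ hn hex => exc_nonneg_to le_rfl hn hex hc

/-- general negative constants reduce to `c = -1` up to changing `κ`: upper bound -/
lemma upper_A' (hU : Upper) (hN : NicUp) {c κ : ℝ} (h0 : 0 < κ) {ε : ℝ} (hε : 0 < ε) :
    ∀ᶠ x : ℝ in atTop, (cnt c κ x : ℝ) ≤ Real.exp ((Real.log x) ^ (1 - min κ (1 - zetaSup) / 2 + ε)) := by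
  -- for `log n` large `|c| (log n)^{-κ} ≤ (log n)^{-κ'}` with `κ' < κ`; the finitely many small `n` are absorbed
  set κ' := κ / 2 ⊔ (κ - ε) with hκ'
  have hκ'0 : 0 < κ' := lt_of_lt_of_le (by linarith) le_sup_left
  have hκ'1 : κ' < κ := by rw [hκ']; exact max_lt (by linarith) (by linarith)
  have hκ'2 : κ - ε ≤ κ' := le_sup_right
  -- threshold
  obtain ⟨L0, hL0⟩ : ∃ L0 : ℝ, ∀ L : ℝ, L0 ≤ L → |c| * L ^ (-κ) ≤ L ^ (-κ') :=
    eventually_atTop.mp (pow_ev |c| (b1 := -κ') (b2 := -κ) (by linarith))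
  set M : ℕ := ⌈Real.exp (max L0 1)⌉₊ with hM
  have key : ∀ x : ℝ, cnt c κ x ≤ M + cnt (-1) κ' x := by
    intro x
    have hsub : {n : ℕ | 3 ≤ n ∧ (n : ℝ) ≤ x ∧ Exc c κ n} ⊆
        (↑(Finset.range M) : Set ℕ) ∪ {n : ℕ | 3 ≤ n ∧ (n : ℝ) ≤ x ∧ Exc (-1) κ' n} := by
      rintro n ⟨h1, h2, h3⟩
      rcases lt_or_ge n M with h | h
      · left; simpa using h
      · right
        refine ⟨h1, h2, exc_mono h1 ?_ h3⟩
        have hn0 : (0:ℝ) < n := by
          have : 0 < n := by omega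
          exact_mod_cast this
        have hLn : max L0 1 ≤ Real.log n := by
          rw [Real.le_log_iff_exp_le hn0]
          exact (Nat.le_ceil _).trans (by exact_mod_cast h)
        have h4 := hL0 (Real.log n) ((le_max_left _ _).trans hLn)
        have h5 : 0 < (Real.log n) ^ (-κ) := Real.rpow_pos_of_pos (by linarith [le_max_right L0 1]) _
        have h6 : -|c| ≤ c := neg_abs_le c
        nlinarith
    calc cnt c κ x ≤ ((↑(Finset.range M) : Set ℕ) ∪ {n : ℕ | 3 ≤ n ∧ (n : ℝ) ≤ x ∧ Exc (-1) κ' n}).ncard :=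
          Set.ncard_le_ncard hsub ((Finset.finite_toSet _).union (fin_le _ x))
      _ ≤ (↑(Finset.range M) : Set ℕ).ncard + ({n : ℕ | 3 ≤ n ∧ (n : ℝ) ≤ x ∧ Exc (-1) κ' n}).ncard :=
          Set.ncard_union_le _ _
      _ = M + cnt (-1) κ' x := by rw [Set.ncard_coe_finset, Finset.card_range]; rfl
  have hexp : 1 - min κ' (1 - zetaSup) / 2 ≤ 1 - min κ (1 - zetaSup) / 2 + ε / 2 := by
    have : min κ (1 - zetaSup) - ε ≤ min κ' (1 - zetaSup) := by
      apply le_min
      · linarith [min_le_left κ (1 - zetaSup)]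
      · linarith [min_le_right κ (1 - zetaSup)]
    linarith
  have hbig : ∀ᶠ x : ℝ in atTop, (M:ℝ) ≤ Real.exp ((Real.log x) ^ (1 - min κ (1 - zetaSup) / 2 + ε)) / 2 := by
    have hpos : 0 < 1 - min κ (1 - zetaSup) / 2 + ε := by
      have := min_le_right κ (1 - zetaSup)
      have := half_le_zetaSup
      linarith
    have h1 : Tendsto (fun x : ℝ => Real.exp ((Real.log x) ^ (1 - min κ (1 - zetaSup) / 2 + ε)) / 2) atTop atTop :=
      (Real.tendsto_exp_atTop.comp ((tendsto_rpow_atTop hpos).comp Real.tendsto_log_atTop)).atTop_div_const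
        (by norm_num)
    exact h1.eventually_ge_atTop _
  have hmain := upper_A hU hN hκ'0 (ε := ε / 4) (by linarith)
  have hhalf : ∀ᶠ x : ℝ in atTop, Real.exp ((Real.log x) ^ (1 - min κ' (1 - zetaSup) / 2 + ε / 4)) ≤
      Real.exp ((Real.log x) ^ (1 - min κ (1 - zetaSup) / 2 + ε)) / 2 := by
    have h1 := Real.tendsto_log_atTop.eventually
      (pow_ev 2 (b1 := 1 - min κ (1 - zetaSup) / 2 + ε) (b2 := 1 - min κ' (1 - zetaSup) / 2 + ε / 4) (by linarith))
    filter_upwards [h1, Real.tendsto_log_atTop.eventually_ge_atTop 1] with x h1 hx1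
    have h2 : (1:ℝ) ≤ (Real.log x) ^ (1 - min κ' (1 - zetaSup) / 2 + ε / 4) := by
      apply Real.one_le_rpow hx1
      have := min_le_right κ' (1 - zetaSup)
      have := half_le_zetaSup
      linarith
    set u := (Real.log x) ^ (1 - min κ' (1 - zetaSup) / 2 + ε / 4) with hu
    have h3 : Real.exp u * 2 ≤ Real.exp (2 * u) := by
      rw [two_mul, Real.exp_add]
      apply mul_le_mul_of_nonneg_left _ (Real.exp_pos _).le
      have := Real.add_one_le_exp u
      linarith
    have h4 : Real.exp (2 * u) ≤ Real.exp ((Real.log x) ^ (1 - min κ (1 - zetaSup) / 2 + ε)) :=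
      Real.exp_le_exp.mpr h1
    rw [le_div_iff₀ (by norm_num)]
    exact h3.trans h4
  filter_upwards [hmain, hhalf, hbig] with x h1 h2 h3
  have h4 : (cnt c κ x : ℝ) ≤ M + cnt (-1) κ' x := by exact_mod_cast key x
  linarith

/-- the relaxed inequality -/
theorem nicolas_neg (hTh : ThetaB) (hS : LoShort) (hL : LoLong) (hO : Osc) (hNL : NicLow) (hNU : NicUp)
    (hU : Upper) {c κ : ℝ} (hc : c < 0) (hκ : 0 < κ) : LL (cnt c κ) (1 - min κ (1 - zetaSup) / 2) := by
  refine loglog_limit (fun ε hε => ?_) (fun ε hε => upper_A' hU hNU hκ hε)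
  rcases lt_or_ge κ (1 - zetaSup) with h | h
  · rw [min_eq_left h.le]
    -- `κ'` slightly larger than `κ`
    set e := min (ε / 2) ((1 - zetaSup - κ) / 2) with he
    have he0 : 0 < e := lt_min (by linarith) (by linarith)
    have he1 : e ≤ ε / 2 := min_le_left _ _
    have he2 : e ≤ (1 - zetaSup - κ) / 2 := min_le_right _ _
    have hlow := lower_neg hTh hS hNU (κ := κ + e) (by linarith) (by linarith) (ε := ε / 4) (by linarith)
    obtain ⟨L0, hL0⟩ : ∃ L0 : ℝ, ∀ L : ℝ, L0 ≤ L → |c|⁻¹ * L ^ (-(κ + e)) ≤ L ^ (-κ) :=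
      eventually_atTop.mp (pow_ev |c|⁻¹ (b1 := -κ) (b2 := -(κ + e)) (by linarith))
    set M : ℕ := ⌈Real.exp (max L0 1)⌉₊ with hM
    have key : ∀ x : ℝ, cnt (-1) (κ + e) x ≤ M + cnt c κ x := by
      intro x
      have hsub : {n : ℕ | 3 ≤ n ∧ (n : ℝ) ≤ x ∧ Exc (-1) (κ + e) n} ⊆
          (↑(Finset.range M) : Set ℕ) ∪ {n : ℕ | 3 ≤ n ∧ (n : ℝ) ≤ x ∧ Exc c κ n} := by
        rintro n ⟨h1, h2, h3⟩
        rcases lt_or_ge n M with h | h
        · left; simpa using h
        · right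
          refine ⟨h1, h2, exc_mono h1 ?_ h3⟩
          have hn0 : (0:ℝ) < n := by
            have : 0 < n := by omega
            exact_mod_cast this
          have hLn : max L0 1 ≤ Real.log n := by
            rw [Real.le_log_iff_exp_le hn0]
            exact (Nat.le_ceil _).trans (by exact_mod_cast h)
          have h4 := hL0 (Real.log n) ((le_max_left _ _).trans hLn)
          have h6 : |c| = -c := abs_of_neg hc
          rw [h6] at h4
          have h7 : (-c) * ((-c)⁻¹ * (Real.log n) ^ (-(κ + e))) ≤ (-c) * (Real.log n) ^ (-κ) :=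
            mul_le_mul_of_nonneg_left h4 (by linarith)
          rw [← mul_assoc, mul_inv_cancel₀ (by linarith), one_mul] at h7
          linarith
      calc cnt (-1) (κ + e) x ≤
          ((↑(Finset.range M) : Set ℕ) ∪ {n : ℕ | 3 ≤ n ∧ (n : ℝ) ≤ x ∧ Exc c κ n}).ncard :=
            Set.ncard_le_ncard hsub ((Finset.finite_toSet _).union (fin_le _ x))
        _ ≤ (↑(Finset.range M) : Set ℕ).ncard + ({n : ℕ | 3 ≤ n ∧ (n : ℝ) ≤ x ∧ Exc c κ n}).ncard :=
            Set.ncard_union_le _ _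
        _ = M + cnt c κ x := by rw [Set.ncard_coe_finset, Finset.card_range]; rfl
    have hpos : 0 < 1 - (κ + e) / 2 - ε / 4 ∨ 1 - (κ + e) / 2 - ε / 4 ≤ 0 := lt_or_ge _ _
    have hz := half_le_zetaSup
    rcases le_or_gt (1 - κ / 2 - ε) 0 with hneg | hposs
    · -- exponent nonpositive: `cnt ≥ 3`-type bound from unboundedness
      have hlow2 := lower_neg hTh hS hNU (κ := κ + e) (by linarith) (by linarith) (ε := 1 / 4) (by norm_num)
      have h1 : ∀ᶠ x : ℝ in atTop, (M:ℝ) + 3 ≤ Real.exp ((Real.log x) ^ (1 - (κ + e) / 2 - 1 / 4)) :=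
        (Real.tendsto_exp_atTop.comp ((tendsto_rpow_atTop (by linarith)).comp
          Real.tendsto_log_atTop)).eventually_ge_atTop _
      filter_upwards [hlow2, h1, Real.tendsto_log_atTop.eventually_ge_atTop 1] with x h1 h2 h3
      have h4 : (cnt (-1) (κ + e) x : ℝ) ≤ M + cnt c κ x := by exact_mod_cast key x
      have h5 : Real.exp ((Real.log x) ^ (1 - κ / 2 - ε)) ≤ Real.exp 1 :=
        Real.exp_le_exp.mpr (Real.rpow_le_one_of_one_le_of_nonpos h3 hneg)
      have := Real.exp_one_lt_d9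
      linarith
    · have hp : 0 < 1 - (κ + e) / 2 - ε / 4 := by linarith
      have h1 : ∀ᶠ x : ℝ in atTop, (M:ℝ) ≤ Real.exp ((Real.log x) ^ (1 - (κ + e) / 2 - ε / 4)) / 2 :=
        ((Real.tendsto_exp_atTop.comp ((tendsto_rpow_atTop hp).comp
          Real.tendsto_log_atTop)).atTop_div_const (by norm_num)).eventually_ge_atTop _
      have h2 := Real.tendsto_log_atTop.eventually
        (pow_ev 2 (b1 := 1 - (κ + e) / 2 - ε / 4) (b2 := 1 - κ / 2 - ε) (by linarith))
      filter_upwards [hlow, h1, h2, Real.tendsto_log_atTop.eventually_ge_atTop 1] with x h1 h2 h3 hx1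
      have h4 : (cnt (-1) (κ + e) x : ℝ) ≤ M + cnt c κ x := by exact_mod_cast key x
      have h5 : (1:ℝ) ≤ (Real.log x) ^ (1 - κ / 2 - ε) := Real.one_le_rpow hx1 hposs.le
      set u := (Real.log x) ^ (1 - κ / 2 - ε) with hu
      have h6 : Real.exp u * 2 ≤ Real.exp ((Real.log x) ^ (1 - (κ + e) / 2 - ε / 4)) := by
        refine le_trans ?_ (Real.exp_le_exp.mpr h3)
        rw [two_mul, Real.exp_add]
        apply mul_le_mul_of_nonneg_left _ (Real.exp_pos _).le
        have := Real.add_one_le_exp u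
        linarith
      linarith
  · rw [min_eq_right h]
    filter_upwards [lower_zero hTh hS hL hO hNL κ hε] with x hx
    have e : 1 - (1 - zetaSup) / 2 - ε = (1 + zetaSup) / 2 - ε := by ring
    rw [e]
    refine hx.trans ?_
    exact_mod_cast cnt_zero_le hc.le

/-- the strengthened inequality below the threshold -/
theorem nicolas_pos (hTh : ThetaB) (hS : LoShort) (hL : LoLong) (hO : Osc) (hNL : NicLow) (hNU : NicUp)
    (hU : Upper) {c κ : ℝ} (hc : 0 ≤ c) (hκ : 1 - zetaSup < κ) : LL (cnt c κ) ((1 + zetaSup) / 2) :=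
  loglog_limit (fun _ hε => lower_pos hTh hS hL hO hNL hc hκ hε) (fun _ hε => upper_B hU hNU hc κ hε)

theorem robin_limit (hTh : ThetaB) (hS : RobShort) (hL : RobLong) (hO : Osc) (hNL : NicLow) (hNU : NicUp)
    (hU : Upper) (hhalf : 1 / 2 < zetaSup) : LL cntR ((1 + zetaSup) / 2) :=
  loglog_limit (fun _ hε => robin_lower hTh hS hL hO hNL hhalf hε) (fun _ hε => robin_upper hU hNU sigPhi hε)

/-- the Riemann hypothesis in terms of the number of exceptions -/
theorem rh_iff_robin (hTh : ThetaB) (hS : RobShort) (hL : RobLong) (hO : Osc) (hNL : NicLow) (hNU : NicUp)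
    (hU : Upper) : RiemannHypothesis ↔
      ∀ ε : ℝ, 0 < ε → ∃ᶠ x : ℝ in atTop, (cntR x : ℝ) ≤ Real.exp ((Real.log x) ^ (3 / 4 + ε)) := by
  rw [rh_iff_zetaSup]
  constructor
  · intro h ε hε
    have := robin_upper hU hNU sigPhi hε
    rw [h] at this
    have e : (1 + (1:ℝ) / 2) / 2 = 3 / 4 := by norm_num
    rw [e] at this
    exact this.frequently
  · intro h
    by_contra hne
    have hhalf : 1 / 2 < zetaSup := lt_of_le_of_ne half_le_zetaSup (Ne.symm hne)
    have h1 := robin_lower hTh hS hL hO hNL hhalf (ε := (zetaSup - 1 / 2) / 8) (by linarith)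
    have h2 := h ((zetaSup - 1 / 2) / 4) (by linarith)
    have h3 := Real.tendsto_log_atTop.eventually
      (pow_ev 2 (b1 := (1 + zetaSup) / 2 - (zetaSup - 1 / 2) / 8) (b2 := 3 / 4 + (zetaSup - 1 / 2) / 4) (by linarith))
    obtain ⟨x, hx, hy, hz, hw⟩ := (h2.and_eventually (h1.and (h3.and
      (Real.tendsto_log_atTop.eventually_ge_atTop 1)))).exists
    have h4 : Real.exp ((Real.log x) ^ ((1 + zetaSup) / 2 - (zetaSup - 1 / 2) / 8)) ≤
        Real.exp ((Real.log x) ^ (3 / 4 + (zetaSup - 1 / 2) / 4)) := hy.trans hx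
    rw [Real.exp_le_exp] at h4
    have h5 : 0 < (Real.log x) ^ (3 / 4 + (zetaSup - 1 / 2) / 4) := Real.rpow_pos_of_pos (by linarith) _
    linarith

/-- a zero-free half-plane in terms of the number of exceptions -/
theorem half_plane_iff_robin (hTh : ThetaB) (hS : RobShort) (hL : RobLong) (hO : Osc) (hNL : NicLow)
    (hNU : NicUp) (hU : Upper) :
    (∃ σ₀ : ℝ, 1 / 2 < σ₀ ∧ σ₀ < 1 ∧ ∀ s : ℂ, σ₀ ≤ s.re → riemannZeta s ≠ 0) ↔
      ∃ δ : ℝ, 0 < δ ∧ ∃ᶠ x : ℝ in atTop, (cntR x : ℝ) ≤ Real.exp ((Real.log x) ^ (1 - δ)) := by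
  constructor
  · rintro ⟨σ₀, h0, h1, h⟩
    have hz : zetaSup ≤ σ₀ := by
      apply csSup_le zset_nonempty
      rintro x ⟨s, hs, rfl⟩
      by_contra hc
      exact h s (not_le.mp hc).le hs.1
    refine ⟨(1 - σ₀) / 4, by linarith, ?_⟩
    have h2 := robin_upper hU hNU sigPhi (ε := (1 - σ₀) / 4) (by linarith)
    have h3 : ∀ᶠ x : ℝ in atTop, (cntR x : ℝ) ≤ Real.exp ((Real.log x) ^ (1 - (1 - σ₀) / 4)) := by
      filter_upwards [h2, rpow_ev (b := (1 + zetaSup) / 2 + (1 - σ₀) / 4) (c := 1 - (1 - σ₀) / 4) (by linarith)]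
        with x h4 h5
      exact h4.trans h5
    exact h3.frequently
  · rintro ⟨δ, hδ, h⟩
    have hlt : zetaSup < 1 := by
      by_contra hc
      have h1 : zetaSup = 1 := le_antisymm zetaSup_le_one (not_lt.mp hc)
      have h2 := robin_lower hTh hS hL hO hNL (by rw [h1]; norm_num) (ε := δ / 2) (by linarith)
      have h3 := Real.tendsto_log_atTop.eventually
        (pow_ev 2 (b1 := (1 + zetaSup) / 2 - δ / 2) (b2 := 1 - δ) (by rw [h1]; linarith))
      obtain ⟨x, hx, hy, hz, hw⟩ := (h.and_eventually (h2.and (h3.and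
        (Real.tendsto_log_atTop.eventually_ge_atTop 1)))).exists
      have h4 := hy.trans hx
      rw [Real.exp_le_exp] at h4
      have h5 : 0 < (Real.log x) ^ (1 - δ) := Real.rpow_pos_of_pos (by linarith) _
      linarith
    have hz2 := half_le_zetaSup
    refine ⟨(1 + zetaSup) / 2, by linarith, by linarith, fun s hs hz => ?_⟩
    have hne : s ≠ 1 := by
      rintro rfl
      exact riemannZeta_ne_zero_of_one_le_re (by simp) hz
    refine zetaSup_free s (by linarith) ?_
    rw [← Zs_eq hne, hz, mul_zero]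

end

end Pool.Agent.H295R2.Nic
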