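import Pool.Agent.H295R2.T6b

/-!
# Counting the exceptions to Nicolas' and Robin's inequalities: definitions and statements of the parts

Each `def Xxx : Prop` below is a statement to be proved in its own file.
Throughout `Θ = zetaSup` (`Pool.Agent.H295R2.zetaSup`), the supremum of the real parts of the zeros of zeta
in the critical strip, and `Zs s = (s-1) ζ(s)` (entire, `Zs 1 = 1`).
-/

set_option autoImplicit false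

open MeasureTheory Filter Topology Set

namespace Pool.Agent.H295R2.Nic

open Pool.Agent.H295R2

noncomputable section

/-! ### analytic number theory -/

/-- `∑_{p ≤ y} -log(1-1/p)` -/
def MP (y : ℝ) : ℝ := ∑ p ∈ (Finset.Icc 1 ⌊y⌋₊).filter Nat.Prime, -Real.log (1 - 1 / (p : ℝ))

/-- Nicolas' function `log ∏_{p ≤ y} (1-1/p)^{-1} - γ - log log θ(y)`. -/
def fN (y : ℝ) : ℝ := MP y - Real.eulerMascheroniConstant - Real.log (Real.log (Chebyshev.theta y))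

/-- The weight `(1 + log t)/log² t`. -/
def ell (t : ℝ) : ℝ := (1 + Real.log t) / Real.log t ^ 2

/-- `K(y) = ∫_y^∞ (ψ(t) - t) (1 + log t)/(t² log² t) dt` (absolutely convergent for `y > 1` by `PsiLog`). -/
def KK (y : ℝ) : ℝ := ∫ t in Ioi y, (Chebyshev.psi t - t) * ell t / t ^ 2

/-- `S(v) = ψ(e^v) - e^v` -/
def Sv (v : ℝ) : ℝ := Chebyshev.psi (Real.exp v) - Real.exp v

/-- The Laplace transform `∫_0^∞ S(v) e^{-sv} dv`. -/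
def HH (s : ℂ) : ℂ := ∫ v in Ioi (0 : ℝ), (Sv v : ℂ) * Complex.exp (-s * v)

/-- The analytic expression of `HH`. -/
def HA (s : ℂ) : ℂ := -(deriv Zs s) / (s * Zs s) - 1 / s

/-- N1: logarithmic derivative to the right of the zeros. -/
def LogDerB : Prop := ∀ θ : ℝ, zetaSup < θ → ∀ ε : ℝ, 0 < ε → ∃ C : ℝ, ∀ s : ℂ, θ ≤ s.re → s.re ≤ 3 →
  ‖deriv Zs s / Zs s‖ ≤ C * (1 + |s.im|) ^ ε

/-- N2: the error term in the prime number theorem. -/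
def PsiB : Prop := ∀ θ : ℝ, zetaSup < θ → ∃ C : ℝ, ∀ x : ℝ, 1 ≤ x → |Chebyshev.psi x - x| ≤ C * x ^ θ

/-- N3: the same for `θ(x)`. -/
def ThetaB : Prop := ∀ θ : ℝ, zetaSup < θ → ∃ C : ℝ, ∀ x : ℝ, 1 ≤ x → |Chebyshev.theta x - x| ≤ C * x ^ θ

/-- N4: unconditional bound. -/
def PsiLog : Prop := ∃ C : ℝ, ∀ x : ℝ, 2 ≤ x → |Chebyshev.psi x - x| ≤ C * x / Real.log x

/-- N5: the Laplace transform. -/
def HEq : Prop := ∀ s : ℂ, zetaSup < s.re →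
  IntegrableOn (fun v : ℝ => (Sv v : ℂ) * Complex.exp (-s * v)) (Ioi 0) ∧ HH s = HA s

/-- N6: no real zeros. -/
def RealNZ : Prop := ∀ σ : ℝ, 0 < σ → Zs (σ : ℂ) ≠ 0

/-- N7: Gaussian averages of `K` are exponentially small. -/
def MeanK : Prop := ∀ δ : ℝ, 0 < δ → δ ≤ 1 → ∃ c C : ℝ, 0 < c ∧ ∀ μ : ℝ, 1 ≤ μ →
  |∫ v in Ioi (1 : ℝ), KK (Real.exp v) * Real.exp ((1 - zetaSup) * v) *
    Real.exp (-(v - μ) ^ 2 / (2 * (δ * μ)))| ≤ C * Real.exp (-c * μ)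

/-- N8: modulated Gaussian averages of `ψ(e^v) - e^v` are not small, for a suitable frequency. -/
def LocMain : Prop := ∀ δ : ℝ, 0 < δ → δ ≤ 1 → ∀ η : ℝ, 0 < η → ∃ τ μ₀ : ℝ, ∀ μ : ℝ, μ₀ ≤ μ →
  Real.exp (-η * μ) ≤ ‖∫ v in Ioi (0 : ℝ), (Sv v : ℂ) * Complex.exp ((-zetaSup + τ * Complex.I) * v) *
    (Real.exp (-(v - μ) ^ 2 / (2 * (δ * μ))) : ℂ)‖

/-- N9: localised one-sided oscillation of `K`. -/
def Osc : Prop := ∀ ε ε₁ : ℝ, 0 < ε → 0 < ε₁ → ε₁ < 1 → ∃ Y₀ : ℝ, ∀ Y : ℝ, Y₀ ≤ Y →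
  ∃ y : ℝ, Y ^ (1 - ε₁) ≤ y ∧ y ≤ Y ∧ y ^ (zetaSup - 1 - ε) ≤ -KK y

/-- N10: lower bound for Nicolas' function. -/
def NicLow : Prop := ∃ y₀ : ℝ, ∀ y : ℝ, y₀ ≤ y → -KK y ≤ fN y

/-- N11: two-sided bound for Nicolas' function. -/
def NicUp : Prop := ∀ θ : ℝ, zetaSup < θ → θ < 1 → ∃ C : ℝ, ∀ y : ℝ, 4 ≤ y → |fN y| ≤ C * y ^ (θ - 1)

/-! ### counting -/

/-- `n/φ(n) ≥ e^γ log log n · (1 + c (log n)^{-κ})` -/
def Exc (c κ : ℝ) (n : ℕ) : Prop :=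
  Real.exp Real.eulerMascheroniConstant * Real.log (Real.log n) * (1 + c * (Real.log n) ^ (-κ)) ≤
    (n : ℝ) / Nat.totient n

/-- the number of `3 ≤ n ≤ x` with `Exc c κ n` -/
def cnt (c κ x : ℝ) : ℕ := Set.ncard {n : ℕ | 3 ≤ n ∧ (n : ℝ) ≤ x ∧ Exc c κ n}

/-- `σ(n) ≥ e^γ n log log n`: exceptions to Robin's inequality -/
def ExcR (n : ℕ) : Prop :=
  Real.exp Real.eulerMascheroniConstant * n * Real.log (Real.log n) ≤ (ArithmeticFunction.sigma 1 n : ℝ)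

/-- the number of exceptions `3 ≤ n ≤ x` to Robin's inequality -/
def cntR (x : ℝ) : ℕ := Set.ncard {n : ℕ | 3 ≤ n ∧ (n : ℝ) ≤ x ∧ ExcR n}

/-- C1: structure of the exceptional integers. `y` is the largest integer with `θ(y) ≤ log n`. -/
def Struct : Prop := ∀ κ C : ℝ, 0 < κ → κ < 1 → 0 < C →
  (∃ y₀ : ℝ, ∀ y : ℝ, y₀ ≤ y → fN y ≤ C * y ^ (-κ)) → ∃ (C' : ℝ) (Y₀ : ℕ), 0 < C' ∧
    ∀ n y : ℕ, Y₀ ≤ y → Chebyshev.theta y ≤ Real.log n → Real.log n < Chebyshev.theta ((y : ℝ) + 1) →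
      Exc (-C) κ n →
      (∑ p ∈ (Finset.Icc 1 y).filter (fun p => p.Prime ∧ ¬ p ∣ n), ((y : ℝ) - p) / (y : ℝ) ^ 2) +
      (∑ p ∈ n.primeFactors.filter (fun p => y < p ∧ p ≤ 2 * y), ((p : ℝ) - y) / (y : ℝ) ^ 2) +
      (∑ p ∈ n.primeFactors.filter (fun p => 2 * y < p), Real.log p / (y * Real.log y)) +
      Real.log ((n : ℝ) / ∏ p ∈ n.primeFactors, (p : ℝ)) / (y * Real.log y) ≤ C' * (y : ℝ) ^ (-κ)

/-- C1b: the maximum of `n/φ(n)`. -/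
def MaxN : Prop := ∃ (C : ℝ) (Y₀ : ℕ), ∀ n y : ℕ, Y₀ ≤ y → Chebyshev.theta y ≤ Real.log n →
  Real.log n < Chebyshev.theta ((y : ℝ) + 1) →
    Real.log ((n : ℝ) / Nat.totient n) ≤
      Real.eulerMascheroniConstant + Real.log (Real.log (Real.log n)) + fN y + C / y

/-- C2: upper bound for the count. -/
def Upper : Prop := ∀ κ C : ℝ, 0 < κ → κ < 1 → 0 < C →
  (∃ y₀ : ℝ, ∀ y : ℝ, y₀ ≤ y → fN y ≤ C * y ^ (-κ)) → ∀ ε : ℝ, 0 < ε → ∃ x₀ : ℝ, ∀ x : ℝ, x₀ ≤ x →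
    (cnt (-C) κ x : ℝ) ≤ Real.exp ((Real.log x) ^ (1 - κ / 2 + ε))

/-- the integers `n` with `y/2 ≤ log n ≤ 2y` and `log(n/φ(n)) ≥ γ + log log log n - B` -/
def Near (y B : ℝ) : Set ℕ := {n : ℕ | y / 2 ≤ Real.log n ∧ Real.log n ≤ 2 * y ∧
  Real.eulerMascheroniConstant + Real.log (Real.log (Real.log n)) - B ≤ Real.log ((n : ℝ) / Nat.totient n)}

/-- the integers `n` with `y/2 ≤ log n ≤ 2y` and `log(σ(n)/n) ≥ γ + log log log n` -/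
def NearR (y : ℝ) : Set ℕ := {n : ℕ | y / 2 ≤ Real.log n ∧ Real.log n ≤ 2 * y ∧
  Real.eulerMascheroniConstant + Real.log (Real.log (Real.log n)) ≤
    Real.log ((ArithmeticFunction.sigma 1 n : ℝ) / n)}

/-- C3: removing primes from a short interval below `y` (needs a power saving for `θ(x) - x`). -/
def LoShort : Prop := ∀ θ κ ε : ℝ, θ < 1 → 0 < κ → κ < 1 → κ / 2 < 1 - θ → 0 < ε →
  (∃ C : ℝ, ∀ x : ℝ, 1 ≤ x → |Chebyshev.theta x - x| ≤ C * x ^ θ) → ∃ Y₀ : ℝ, ∀ y B : ℝ, Y₀ ≤ y →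
    y ^ (-κ) ≤ fN y + B → Real.exp (y ^ (1 - κ / 2 - ε)) ≤ ((Near y B).ncard : ℝ)

/-- C4: removing few primes from `(y/2, y]` (unconditional). -/
def LoLong : Prop := ∀ κ ε : ℝ, 0 < κ → κ < 1 → 0 < ε → ∃ Y₀ : ℝ, ∀ y B : ℝ, Y₀ ≤ y →
    y ^ (-κ) ≤ fN y + B → Real.exp (y ^ (1 - κ - ε)) ≤ ((Near y B).ncard : ℝ)

/-- C5: `LoShort` for `σ(n)/n`. -/
def RobShort : Prop := ∀ θ κ ε : ℝ, θ < 1 → 0 < κ → κ < 1 / 2 → κ / 2 < 1 - θ → 0 < ε →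
  (∃ C : ℝ, ∀ x : ℝ, 1 ≤ x → |Chebyshev.theta x - x| ≤ C * x ^ θ) → ∃ Y₀ : ℝ, ∀ y : ℝ, Y₀ ≤ y →
    y ^ (-κ) ≤ fN y → Real.exp (y ^ (1 - κ / 2 - ε)) ≤ ((NearR y).ncard : ℝ)

/-- C6: `LoLong` for `σ(n)/n`. -/
def RobLong : Prop := ∀ κ ε : ℝ, 0 < κ → κ < 1 / 2 → 0 < ε → ∃ Y₀ : ℝ, ∀ y : ℝ, Y₀ ≤ y →
    y ^ (-κ) ≤ fN y → Real.exp (y ^ (1 - κ - ε)) ≤ ((NearR y).ncard : ℝ)

end

end Pool.Agent.H295R2.Nic
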