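import Pool.Agent.H295R2.Nic.Defs
import Pool.Agent.Helper240.ZU.A1

set_option autoImplicit false

open MeasureTheory Filter Topology Set

namespace Pool.Agent.H295R2.Nic

open Pool.Agent.H295R2

theorem realNZ : RealNZ := by
  intro σ hσ
  rcases le_or_gt 1 σ with h | h
  · exact Zs_ne_zero_of_one_le (by simpa using h)
  · have hne : (σ : ℂ) ≠ 1 := by
      intro h1
      have : σ = 1 := by exact_mod_cast h1
      linarith
    rw [← Zs_eq hne]
    refine mul_ne_zero (sub_ne_zero.mpr hne) ?_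
    intro h0
    have h1 := ZU.J_a1.zf_one (σ : ℂ) (by simpa using hσ) hne
    rw [h0] at h1
    have h2 : (∫ u in Ioi (1 : ℝ), ((Int.fract u : ℝ) : ℂ) * (u : ℂ) ^ (-(σ : ℂ) - 1)) =
        ((∫ u in Ioi (1 : ℝ), Int.fract u * u ^ (-σ - 1) : ℝ) : ℂ) := by
      rw [← integral_complex_ofReal]
      refine setIntegral_congr_fun measurableSet_Ioi fun u hu => ?_
      have hu0 : (0:ℝ) ≤ u := by
        have : (1:ℝ) < u := hu
        linarith
      rw [show (-(σ:ℂ) - 1) = ((-σ - 1 : ℝ) : ℂ) by push_cast; ring, ← Complex.ofReal_cpow hu0]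
      push_cast
      ring
    rw [h2] at h1
    have h3 : (0:ℝ) = 1 + 1 / (σ - 1) - σ * ∫ u in Ioi (1 : ℝ), Int.fract u * u ^ (-σ - 1) := by
      have : ((0:ℝ) : ℂ) = ((1 + 1 / (σ - 1) - σ * ∫ u in Ioi (1 : ℝ), Int.fract u * u ^ (-σ - 1) : ℝ) : ℂ) := by
        push_cast
        rw [h1]
      exact_mod_cast this
    have h4 : 0 ≤ ∫ u in Ioi (1 : ℝ), Int.fract u * u ^ (-σ - 1) := by
      apply setIntegral_nonneg measurableSet_Ioi
      intro u hu
      have hu0 : (0:ℝ) < u := by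
        have : (1:ℝ) < u := hu
        linarith
      exact mul_nonneg (Int.fract_nonneg _) (Real.rpow_nonneg hu0.le _)
    have h5 : 1 + 1 / (σ - 1) = -(σ / (1 - σ)) := by
      have : σ - 1 ≠ 0 := by linarith
      have : 1 - σ ≠ 0 := by linarith
      field_simp
      ring
    have h6 : 0 < σ / (1 - σ) := div_pos hσ (by linarith)
    have h7 : 0 ≤ σ * ∫ u in Ioi (1 : ℝ), Int.fract u * u ^ (-σ - 1) := mul_nonneg hσ.le h4
    linarith

end Pool.Agent.H295R2.Nic
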